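import Pool.Agent.H354.BG.Stm

set_option autoImplicit false

/-! Project BG (helper354), task GG: axioms G1, G2 of the geometry. -/

namespace Pool.Agent.H229.BG.GG

open Pool.Agent.H354.BG
open Pool.Agent.H482R3.EA (W inv ev PP xx evF cond1 cond2 Syl gOf Sys St Near InD Adm Act)
open Pool.Agent.H482R3.EB (tot wp alt rels AR gR TR Tame Symm alt_length)

variable {D : Dat} {U : Finset (Fin D.r)} {b : Fin D.r}

/-- the type of the cross lines -/
abbrev CL (D : Dat) (U : Finset (Fin D.r)) (b : Fin D.r) : Type :=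
  Σ i : LI D U b, D.A ⧸ Hw D U b i.1.2

lemma pt_eq {p q : Pt D U b} (h2 : p.2 = q.2) {g g' : D.A} (hp : p.1 = QuotientGroup.mk g)
    (hq : q.1 = QuotientGroup.mk g') (hu : rho D U (g⁻¹ * g') ∈ par D (pZ D U b)) : p = q := by
  refine Prod.ext ?_ h2
  rw [hp, hq]
  exact QuotientGroup.eq.2 hu

lemma h0_of {x : D.A ⧸ H0 D U b} {g g' : D.A} (hp : x = QuotientGroup.mk g)
    (hq : x = QuotientGroup.mk g') : rho D U (g⁻¹ * g') ∈ par D (pZ D U b) :=
  QuotientGroup.eq.1 (hp.symm.trans hq)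

lemma rel_of {p q : Pt D U b} {a : CL D U b} (h1 : Ix D U b p (Sum.inr a))
    (h2 : Ix D U b q (Sum.inr a)) : p.2 = q.2 ∧ ∃ (g g' : D.A) (n : ℤ) (u : D.A),
      p.1 = QuotientGroup.mk g ∧ q.1 = QuotientGroup.mk g' ∧ a.2 = QuotientGroup.mk g ∧
      a.2 = QuotientGroup.mk g' ∧ u ∈ par D (pZ D (pZ D U b) (D.β a.1.1.2)) ∧
      rho D U (g⁻¹ * g') = gR D.m a.1.1.2 ^ n * u := by
  obtain ⟨hv, g, hg1, hg2⟩ := h1
  obtain ⟨hv', g', hg1', hg2'⟩ := h2
  refine ⟨Subtype.ext (hv.trans hv'.symm), g, g', ?_⟩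
  have h3 : g⁻¹ * g' ∈ Hw D U b a.1.1.2 := QuotientGroup.eq.1 (hg2.symm.trans hg2')
  obtain ⟨n, u, hu, hn⟩ := h3
  exact ⟨n, u, hg1, hg1', hg2, hg2', hu, hn⟩

lemma line_eq {a a' : CL D U b} (hv : a.1.1.1 = a'.1.1.1) (hw : a.1.1.2 = a'.1.1.2)
    {g g' : D.A} (h : a.2 = QuotientGroup.mk g) (h' : a'.2 = QuotientGroup.mk g')
    (hu : rho D U (g⁻¹ * g') ∈ par D (pZ D (pZ D U b) (D.β a.1.1.2))) : a = a' := by
  obtain ⟨i, C⟩ := a
  obtain ⟨j, C'⟩ := a'
  have hij : i = j := Subtype.ext (Prod.ext hv hw)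
  subst hij
  have h3 : C = C' := by
    have h4 : C = QuotientGroup.mk g := h
    have h5 : C' = QuotientGroup.mk g' := h'
    rw [h4, h5]
    refine QuotientGroup.eq.2 ?_
    exact ⟨0, _, hu, by rw [zpow_zero, one_mul]⟩
  rw [h3]

lemma v_eq {p : Pt D U b} {a a' : CL D U b} (h1 : Ix D U b p (Sum.inr a))
    (h2 : Ix D U b p (Sum.inr a')) : a.1.1.1 = a'.1.1.1 := h1.1.symm.trans h2.1

lemma snd_eq {p q : Pt D U b} {a : CL D U b} (h1 : Ix D U b p (Sum.inr a))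
    (h2 : Ix D U b q (Sum.inr a)) : p.2 = q.2 := (rel_of h1 h2).1

/-- G1 -/
lemma g1 (hF : Fok D U b) : ∀ (l m : Ln D U b) (p q : Pt D U b), l ≠ m → Ix D U b p l →
    Ix D U b q l → Ix D U b p m → Ix D U b q m → p = q := by
  rintro (g | a) (g' | a') p q hlm hpl hql hpm hqm
  · exfalso
    apply hlm
    have e1 : p.1 = g := hpl
    have e2 : p.1 = g' := hpm
    rw [← e1, ← e2]
  · have e1 : p.1 = g := hpl
    have e2 : q.1 = g := hql
    exact Prod.ext (e1.trans e2.symm) (snd_eq hpm hqm)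
  · have e1 : p.1 = g' := hpm
    have e2 : q.1 = g' := hqm
    exact Prod.ext (e1.trans e2.symm) (snd_eq hpl hql)
  · obtain ⟨e2, g, g', n, u, hg1, hg2, hg3, hg4, hu, hn⟩ := rel_of hpl hql
    obtain ⟨-, k, k', n', u', hk1, hk2, hk3, hk4, hu', hn'⟩ := rel_of hpm hqm
    have huZ : u ∈ par D (pZ D U b) := par_mono D (pZ_sub D _ _) hu
    have huZ' : u' ∈ par D (pZ D U b) := par_mono D (pZ_sub D _ _) hu'
    by_cases hn0 : n = 0
    · refine pt_eq e2 hg1 hg2 ?_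
      rw [hn, hn0, zpow_zero, one_mul]
      exact huZ
    · exfalso
      have h1 := h0_of hg1 hk1
      have h2 := h0_of hg2 hk2
      have hprod : gR D.m a.1.1.2 ^ n * (u * rho D U (g'⁻¹ * k') * u'⁻¹) *
          gR D.m a'.1.1.2 ^ (-n') = rho D U (g⁻¹ * k) := by
        have h3 : rho D U (g⁻¹ * g') * rho D U (g'⁻¹ * k') =
            rho D U (g⁻¹ * k) * rho D U (k⁻¹ * k') := by
          rw [← map_mul, ← map_mul]
          congr 1
          group
        rw [hn, hn'] at h3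
        calc gR D.m a.1.1.2 ^ n * (u * rho D U (g'⁻¹ * k') * u'⁻¹) * gR D.m a'.1.1.2 ^ (-n')
            = (gR D.m a.1.1.2 ^ n * u * rho D U (g'⁻¹ * k')) * u'⁻¹ *
                gR D.m a'.1.1.2 ^ (-n') := by group
          _ = (rho D U (g⁻¹ * k) * (gR D.m a'.1.1.2 ^ n' * u')) * u'⁻¹ *
                gR D.m a'.1.1.2 ^ (-n') := by rw [h3]
          _ = rho D U (g⁻¹ * k) := by group
      obtain ⟨hw, -, hpar⟩ := hF.1 a.1.1.2 a'.1.1.2 _ _ n (-n') a.1.2.2.1 a.1.2.2.2.2.1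
        a'.1.2.2.1 a'.1.2.2.2.2.1
        (Subgroup.mul_mem _ (Subgroup.mul_mem _ huZ h2) (Subgroup.inv_mem _ huZ')) h1 hn0 hprod
      apply hlm
      refine congrArg Sum.inr (line_eq (v_eq hpl hpm) hw hg4 hk4 ?_)
      rw [← hw] at hu'
      have h4 := Subgroup.mul_mem _ (Subgroup.mul_mem _ (Subgroup.inv_mem _ hu) hpar) hu'
      have h5 : u⁻¹ * (u * rho D U (g'⁻¹ * k') * u'⁻¹) * u' = rho D U (g'⁻¹ * k') := by group
      rwa [h5] at h4

theorem t_GG : S_GG := by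
  intro D U b hb hF
  refine ⟨g1 hF, ?_⟩
  rintro (g | a) (g' | a') (g'' | a'') p q r hlm hmk hkl hpl hpm hqm hqk hrk hrl
  · exfalso
    apply hlm
    have e1 : p.1 = g := hpl
    have e2 : p.1 = g' := hpm
    rw [← e1, ← e2]
  · exfalso
    apply hlm
    have e1 : p.1 = g := hpl
    have e2 : p.1 = g' := hpm
    rw [← e1, ← e2]
  · exfalso
    apply hkl
    have e1 : r.1 = g := hrl
    have e2 : r.1 = g'' := hrk
    rw [← e1, ← e2]
  · have e1 : p.1 = g := hpl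
    have e2 : r.1 = g := hrl
    have e3 := snd_eq hpm hqm
    have e4 := snd_eq hqk hrk
    have e5 : p = r := Prod.ext (e1.trans e2.symm) (e3.trans e4)
    subst e5
    exact g1 hF _ _ p q hmk hpm hqm hrk hqk
  · exfalso
    apply hmk
    have e1 : q.1 = g' := hqm
    have e2 : q.1 = g'' := hqk
    rw [← e1, ← e2]
  · have e1 : p.1 = g' := hpm
    have e2 : q.1 = g' := hqm
    have e3 := snd_eq hrl hpl
    have e4 := snd_eq hqk hrk
    exact Prod.ext (e1.trans e2.symm) (e3.symm.trans e4.symm)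
  · have e1 : q.1 = g'' := hqk
    have e2 : r.1 = g'' := hrk
    have e3 := snd_eq hpm hqm
    have e4 := snd_eq hrl hpl
    have e5 : r = q := Prod.ext (e2.trans e1.symm) (e4.trans e3)
    subst e5
    exact g1 hF _ _ p r hlm hpl hrl hpm hqm
  · obtain ⟨e1, x1, x2, x, u1, hx1, hx2, hx3, hx4, hu1, hx⟩ := rel_of hpm hqm
    obtain ⟨e2, y1, y2, y, u2, hy1, hy2, hy3, hy4, hu2, hy⟩ := rel_of hqk hrk
    obtain ⟨e3, z1, z2, z, u3, hz1, hz2, hz3, hz4, hu3, hz⟩ := rel_of hrl hpl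
    have hu1Z : u1 ∈ par D (pZ D U b) := par_mono D (pZ_sub D _ _) hu1
    have hu2Z : u2 ∈ par D (pZ D U b) := par_mono D (pZ_sub D _ _) hu2
    have hu3Z : u3 ∈ par D (pZ D U b) := par_mono D (pZ_sub D _ _) hu3
    by_cases hx0 : x = 0
    · refine pt_eq e1 hx1 hx2 ?_
      rw [hx, hx0, zpow_zero, one_mul]
      exact hu1Z
    by_cases hy0 : y = 0
    · have hqr : q = r := by
        refine pt_eq e2 hy1 hy2 ?_
        rw [hy, hy0, zpow_zero, one_mul]
        exact hu2Z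
      subst hqr
      exact g1 hF _ _ p q hlm hpl hrl hpm hqm
    by_cases hz0 : z = 0
    · have hrp : r = p := by
        refine pt_eq e3 hz1 hz2 ?_
        rw [hz, hz0, zpow_zero, one_mul]
        exact hu3Z
      subst hrp
      exact g1 hF _ _ r q hmk hpm hqm hrk hqk
    exfalso
    have h1 := h0_of hx2 hy1
    have h2 := h0_of hy2 hz1
    have h3 := h0_of hz2 hx1
    have hprod : gR D.m a'.1.1.2 ^ x * (u1 * rho D U (x2⁻¹ * y1)) * gR D.m a''.1.1.2 ^ y *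
        (u2 * rho D U (y2⁻¹ * z1)) * gR D.m a.1.1.2 ^ z * (u3 * rho D U (z2⁻¹ * x1)) = 1 := by
      calc gR D.m a'.1.1.2 ^ x * (u1 * rho D U (x2⁻¹ * y1)) * gR D.m a''.1.1.2 ^ y *
          (u2 * rho D U (y2⁻¹ * z1)) * gR D.m a.1.1.2 ^ z * (u3 * rho D U (z2⁻¹ * x1))
          = (gR D.m a'.1.1.2 ^ x * u1) * rho D U (x2⁻¹ * y1) * (gR D.m a''.1.1.2 ^ y * u2) *
            rho D U (y2⁻¹ * z1) * (gR D.m a.1.1.2 ^ z * u3) * rho D U (z2⁻¹ * x1) := by
              simp only [mul_assoc]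
        _ = 1 := by
            rw [← hx, ← hy, ← hz, ← map_mul, ← map_mul, ← map_mul, ← map_mul, ← map_mul,
              ← map_one (rho D U)]
            congr 1
            group
    obtain ⟨hw1, hw2, hpar⟩ := hF.2 a'.1.1.2 a''.1.1.2 a.1.1.2 _ _ _ x y z
      a'.1.2.2.1 a'.1.2.2.2.2.1 a''.1.2.2.1 a''.1.2.2.2.2.1 a.1.2.2.1 a.1.2.2.2.2.1
      (Subgroup.mul_mem _ hu1Z h1) (Subgroup.mul_mem _ hu2Z h2) (Subgroup.mul_mem _ hu3Z h3)
      hx0 hy0 hz0 hprod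
    have hcanc : ∀ (c : Fin D.n) (u t : D.A), u ∈ par D (pZ D (pZ D U b) (D.β c)) →
        u * t ∈ par D (pZ D (pZ D U b) (D.β c)) → t ∈ par D (pZ D (pZ D U b) (D.β c)) := by
      intro c u t hu hut
      have h4 := Subgroup.mul_mem _ (Subgroup.inv_mem _ hu) hut
      rwa [inv_mul_cancel_left] at h4
    rcases hpar with hpar | hpar | hpar
    · apply hmk
      exact congrArg Sum.inr (line_eq (v_eq hqm hqk) hw1 hx4 hy3 (hcanc _ _ _ hu1 hpar))
    · apply hkl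
      rw [hw1] at hpar
      exact congrArg Sum.inr (line_eq (v_eq hrk hrl) hw2 hy4 hz3 (hcanc _ _ _ hu2 hpar))
    · apply hlm
      rw [hw1, hw2] at hpar
      exact congrArg Sum.inr (line_eq (v_eq hpl hpm) (hw1.trans hw2).symm hz4 hx3
        (hcanc _ _ _ hu3 hpar))

end Pool.Agent.H229.BG.GG
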